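import Mathlib
import Pool.Agent.Helper91.SY.Goals

/-! Packet SY-TP -/

set_option autoImplicit false

open Set Filter Topology

namespace Pool.Agent.Helper48.SY

open Pool.Agent.Helper91.SY

theorem iter_eq {E : Type} (g : Equiv.Perm E) (N : ℕ) (x : E) :
    (fun x => g x)^[N] x = (g ^ N) x := by
  rw [show (fun x => g x) = (g : E → E) from rfl, Equiv.Perm.iterate_eq_pow]

theorem cont_zpow {E : Type} [TopologicalSpace E] (g : Equiv.Perm E)
    (h1 : Continuous (fun x => g x)) (h2 : Continuous (fun x => g.symm x)) (l : ℤ) :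
    Continuous (fun x => (g ^ l) x) := by
  have hp : ∀ (f : Equiv.Perm E), Continuous (fun x => f x) → ∀ n : ℕ,
      Continuous (fun x => (f ^ n) x) := by
    intro f hf n
    induction n with
    | zero => simpa using continuous_id'
    | succ n ih =>
      have : (fun x => (f ^ (n + 1)) x) = fun x => f ((f ^ n) x) := by
        funext x
        rw [pow_succ', Equiv.Perm.mul_apply]
      rw [this]
      exact hf.comp ih
  obtain ⟨n, rfl | rfl⟩ := l.eq_nat_or_neg
  · simpa using hp g h1 n
  · have h3 : Continuous (fun x => (g⁻¹ : Equiv.Perm E) x) := h2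
    have := hp g⁻¹ h3 n
    simpa [zpow_neg, ← inv_pow] using this

theorem tp : StmtTP := by
  intro E _ _ _ R e τ g ψ hR hτe hg hgs hTr hW hno
  constructor
  · intro z z' hzz
    obtain ⟨N, hN⟩ := exists_nat_gt (max (τ z) (τ z') + ‖τ‖ * R)
    have h1 : τ z - N < -(‖τ‖ * R) := by
      have := le_max_left (τ z) (τ z')
      linarith
    have h2 : τ z' - N < -(‖τ‖ * R) := by
      have := le_max_right (τ z) (τ z')
      linarith
    rw [hW z N h1, hW z' N h2, iter_eq, iter_eq] at hzz
    have h3 := (g ^ N).injective hzz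
    exact sub_left_injective h3
  · intro p
    by_cases hcase : ∃ k : ℕ, τ ((g ^ (-(k : ℤ))) p) < -(‖τ‖ * R)
    · obtain ⟨k, hk⟩ := hcase
      refine ⟨(g ^ (-(k : ℤ))) p + (k : ℝ) • e, ?_⟩
      have h1 : τ ((g ^ (-(k : ℤ))) p + (k : ℝ) • e) - k < -(‖τ‖ * R) := by
        rw [map_add, map_smul, hτe]
        simp only [smul_eq_mul, mul_one]
        linarith
      rw [hW _ k h1, iter_eq, add_sub_cancel_right]
      rw [← zpow_natCast, ← Equiv.Perm.mul_apply, ← zpow_add]
      simp
    · exfalso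
      push Not at hcase
      obtain ⟨q, hq⟩ : ∃ q : ℕ → E, q = fun k : ℕ => (g ^ (-(k : ℤ))) p := ⟨_, rfl⟩
      have hq0 : q 0 = p := by rw [hq]; simp
      have hqs : ∀ k, q (k + 1) = g.symm (q k) := by
        intro k
        rw [hq]
        show (g ^ (-((k + 1 : ℕ) : ℤ))) p = g⁻¹ ((g ^ (-(k : ℤ))) p)
        rw [← Equiv.Perm.mul_apply]
        congr 1
        rw [← zpow_neg_one, ← zpow_add]
        congr 1
        push_cast
        ring
      have hqm : ∀ k, -(‖τ‖ * R) ≤ τ (q k) := by
        intro k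
        have := hcase k
        rw [hq]
        exact this
      -- bound of g.symm on a ball
      obtain ⟨S, hS⟩ : ∃ S : ℝ, ∀ x : E, ‖x‖ ≤ R + ‖e‖ → ‖g.symm x‖ ≤ S := by
        have hc : IsCompact (Metric.closedBall (0 : E) (R + ‖e‖)) := isCompact_closedBall _ _
        obtain ⟨S, hS⟩ := (hc.image hgs).isBounded.exists_norm_le
        refine ⟨S, fun x hx => hS _ ⟨x, ?_, rfl⟩⟩
        simpa using hx
      obtain ⟨C₀, hC₀⟩ : ∃ C₀ : ℝ, C₀ = max ‖p‖ S := ⟨_, rfl⟩
      have hrep : ∀ k, ∃ (y : E) (j : ℕ), q k = y - (j : ℝ) • e ∧ ‖y‖ ≤ C₀ := by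
        intro k
        induction k with
        | zero => exact ⟨p, 0, by simp [hq0], by rw [hC₀]; exact le_max_left _ _⟩
        | succ k ih =>
          obtain ⟨y, j, h1, h2⟩ := ih
          by_cases hbig : R + ‖e‖ ≤ ‖q k‖
          · refine ⟨y, j + 1, ?_, h2⟩
            have h3 : g (q k - e) = q k := by
              have h4 : R ≤ ‖q k - e‖ := by
                have := norm_sub_norm_le (q k) e
                linarith
              rw [hTr _ h4]
              simp
            have h5 : g.symm (q k) = q k - e := by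
              rw [Equiv.symm_apply_eq, h3]
            rw [hqs, h5, h1]
            push_cast
            rw [add_smul, one_smul]
            abel
          · push Not at hbig
            refine ⟨q (k + 1), 0, by simp, ?_⟩
            rw [hqs, hC₀]
            exact le_trans (hS _ hbig.le) (le_max_right _ _)
      have hbd : ∀ k, ‖q k‖ ≤ C₀ + (‖τ‖ * C₀ + ‖τ‖ * R) * ‖e‖ := by
        intro k
        obtain ⟨y, j, h1, h2⟩ := hrep k
        have h3 := hqm k
        rw [h1, map_sub, map_smul, hτe] at h3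
        simp only [smul_eq_mul, mul_one] at h3
        have h4 : τ y ≤ ‖τ‖ * C₀ := by
          calc τ y ≤ |τ y| := le_abs_self _
            _ = ‖τ y‖ := (Real.norm_eq_abs _).symm
            _ ≤ ‖τ‖ * ‖y‖ := τ.le_opNorm y
            _ ≤ ‖τ‖ * C₀ := mul_le_mul_of_nonneg_left h2 (norm_nonneg _)
        have h5 : (j : ℝ) ≤ ‖τ‖ * C₀ + ‖τ‖ * R := by linarith
        rw [h1]
        calc ‖y - (j : ℝ) • e‖ ≤ ‖y‖ + ‖(j : ℝ) • e‖ := norm_sub_le _ _
          _ = ‖y‖ + (j : ℝ) * ‖e‖ := by rw [norm_smul]; simp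
          _ ≤ C₀ + (‖τ‖ * C₀ + ‖τ‖ * R) * ‖e‖ := by
            have := mul_le_mul_of_nonneg_right h5 (norm_nonneg e)
            linarith
      obtain ⟨C, hC⟩ : ∃ C : ℝ, C = C₀ + (‖τ‖ * C₀ + ‖τ‖ * R) * ‖e‖ := ⟨_, rfl⟩
      rw [← hC] at hbd
      have hc : IsCompact (Metric.closedBall (0 : E) C) := isCompact_closedBall _ _
      obtain ⟨a, _, φ, hφ, hlim⟩ := hc.tendsto_subseq (x := q) (fun k => by simpa using hbd k)
      refine hno a ⟨C, fun l => ?_⟩
      have hcl := cont_zpow g hg hgs l
      have h1 : Tendsto (fun i => ‖(g ^ l) (q (φ i))‖) atTop (𝓝 ‖(g ^ l) a‖) :=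
        ((hcl.tendsto a).comp hlim).norm
      refine le_of_tendsto h1 ?_
      filter_upwards [Filter.eventually_ge_atTop l.toNat] with i hi
      have h2 : l ≤ (φ i : ℤ) := by
        have h3 : i ≤ φ i := hφ.id_le i
        have h4 : l ≤ (l.toNat : ℤ) := Int.self_le_toNat l
        omega
      have h5 : (g ^ l) (q (φ i)) = q ((φ i : ℤ) - l).toNat := by
        rw [hq]
        show (g ^ l) ((g ^ (-(φ i : ℤ))) p) = (g ^ (-((((φ i : ℤ) - l).toNat : ℕ) : ℤ))) p
        rw [← Equiv.Perm.mul_apply, ← zpow_add]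
        congr 2
        rw [Int.toNat_of_nonneg (by omega)]
        ring
      rw [h5]
      exact hbd _

end Pool.Agent.Helper48.SY
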